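import Mathlib

/-!
# MP_b77ea7_nt: the maps `T_k` on the rational numbers with odd denominator: definitions
-/

set_option autoImplicit false

namespace RealGrowth

/-- `ℚ_(2)`: the rational numbers whose reduced denominator is odd. -/
def D : Set ℚ := {x | Odd x.den}

/-- The map `T_k`: `x / 2` for even `x`, `(k x + 1) / 2` for odd `x`. -/
def T (k : ℕ) (x : ℚ) : ℚ := if Even x.num then x / 2 else (k * x + 1) / 2

end RealGrowth
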