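import Pool.Agent.Lib.MP_b77ea7P.Main

/-!
# MP_b77ea7_nt: the local version on 2-adic balls
-/

set_option autoImplicit false

namespace RealGrowth

open Set

theorem T_mem {k : ℕ} (hk : Odd k) {x : ℚ} (hx : x ∈ D) : T k x ∈ D := by
  have hx' : Odd x.den := hx
  have h0 : (x.den : ℚ) ≠ 0 := by exact_mod_cast x.den_nz
  unfold T
  split_ifs with he
  · obtain ⟨c, hc⟩ := he
    refine memD (a := c) (b := x.den) hx' ?_
    nth_rewrite 1 [← Rat.num_div_den x]
    rw [hc]
    push_cast
    field_simp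
    ring
  · have h1 : Even ((k : ℤ) * x.num + x.den) := by
      refine Odd.add_odd (Odd.mul (by exact_mod_cast hk) (Int.not_even_iff_odd.1 he)) ?_
      exact_mod_cast hx'
    obtain ⟨c, hc⟩ := h1
    refine memD (a := c) (b := x.den) hx' ?_
    have h2 : (k : ℚ) * x.num + x.den = c + c := by exact_mod_cast hc
    nth_rewrite 1 [← Rat.num_div_den x]
    field_simp
    linarith

/-- the inverse branch of `T_3 ^ m` into the ball of radius `2 ^ (-m)` around `a` -/
theorem branch {h : ℚ → ℚ} (hc : ∀ x ∈ D, h (T 3 x) = T 5 (h x)) (m : ℕ) :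
    ∀ a ∈ D, ∀ z ∈ D, ∃ x ∈ D, (x - a) / 2 ^ m ∈ D ∧ (2 / 3) ^ m * (|z| + 1) ≤ |x| + 1 ∧
      |h x| + 1 ≤ 2 ^ m * (|h z| + 1) := by
  have o3 : Odd 3 := by decide
  have o5 : Odd 5 := by decide
  induction m with
  | zero =>
    intro a ha z hz
    refine ⟨z, hz, ?_, by simp, by simp⟩
    rw [pow_zero, div_one]
    have h1 : Odd z.den := hz
    have h2 : Odd a.den := ha
    show Odd (z - a).den
    exact Odd.of_dvd_nat (h1.mul h2) (Rat.sub_den_dvd z a)
  | succ m ih =>
    intro a ha z hz
    have hTa : T 3 a ∈ D := T_mem o3 ha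
    obtain ⟨y, hy, hya, hyz, hhy⟩ := ih _ hTa z hz
    have key : ∀ x ∈ D, T 3 x = y → |h x| + 1 ≤ 2 ^ (m + 1) * (|h z| + 1) := by
      intro x hx hxy
      have h1 : T 5 (h x) = h y := by rw [← hc x hx, hxy]
      have h2 : |h x| ≤ 2 * |h y| + 1 := by
        rcases eq_of_T o5 h1 with e | e
        · rw [e]
          unfold al
          rw [abs_mul, abs_two]
          linarith
        · rw [e]
          unfold be
          push_cast
          rw [abs_div, abs_of_pos (by norm_num : (0 : ℚ) < 5), div_le_iff₀ (by norm_num)]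
          have h3 : |2 * h y - 1| ≤ 2 * |h y| + 1 := by
            calc |2 * h y - 1| ≤ |2 * h y| + |1| := abs_sub _ _
              _ = 2 * |h y| + 1 := by rw [abs_mul, abs_two, abs_one]
          have h4 : 0 ≤ |h y| := abs_nonneg _
          linarith
      rw [pow_succ]
      linarith
    rcases eq_of_T o3 (rfl : T 3 a = T 3 a) with e | e
    · refine ⟨al y, al_mem hy, ?_, ?_, key _ (al_mem hy) (T_al 3 hy)⟩
      · have : (al y - a) / 2 ^ (m + 1) = (y - T 3 a) / 2 ^ m := by
          nth_rewrite 1 [e]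
          unfold al
          rw [pow_succ]
          field_simp
        rw [this]
        exact hya
      · have h3 : |al y| = 2 * |y| := by
          unfold al
          rw [abs_mul, abs_two]
        rw [h3, pow_succ]
        have h4 : 0 ≤ |y| := abs_nonneg _
        linarith
    · refine ⟨be 3 y, be_mem o3 hy, ?_, ?_, key _ (be_mem o3 hy) (T_be o3 hy)⟩
      · have : (be 3 y - a) / 2 ^ (m + 1) = (y - T 3 a) / 2 ^ m / 3 := by
          nth_rewrite 1 [e]
          unfold be
          rw [pow_succ]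
          push_cast
          field_simp
          ring
        rw [this]
        set w := (y - T 3 a) / 2 ^ m with hw
        have hwD : Odd w.den := hya
        refine memD (a := w.num) (b := 3 * w.den) (o3.mul hwD) ?_
        push_cast
        nth_rewrite 1 [← Rat.num_div_den w]
        have h0 : (w.den : ℚ) ≠ 0 := by exact_mod_cast w.den_nz
        field_simp
      · have h3 : 2 * |y| - 1 ≤ 3 * |be 3 y| := by
          unfold be
          push_cast
          rw [abs_div, abs_of_pos (by norm_num : (0 : ℚ) < 3), mul_div_cancel₀ _ (by norm_num)]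
          have := abs_sub_abs_le_abs_sub (2 * y) 1
          rw [abs_mul, abs_two, abs_one] at this
          exact this
        rw [pow_succ]
        linarith

theorem local_main {h : ℚ → ℚ} (hi : InjOn h D)
    (hc : ∀ x ∈ D, h (T 3 x) = T 5 (h x)) :
    ∀ a ∈ D, ∀ m : ℕ, ∃ M : ℚ, ∀ N : ℚ, ∃ x ∈ D, (x - a) / 2 ^ m ∈ D ∧ N < |x| ∧ |h x| ≤ M := by
  intro a ha m
  obtain ⟨M, hM⟩ := main hi hc
  refine ⟨2 ^ m * (M + 1), fun N => ?_⟩
  obtain ⟨z, hz, hz1, hz2⟩ := hM ((3 / 2) ^ m * (N + 1))
  obtain ⟨x, hx, hxa, hx1, hx2⟩ := branch hc m a ha z hz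
  refine ⟨x, hx, hxa, ?_, ?_⟩
  · have h1 : (2 / 3 : ℚ) ^ m * ((3 / 2) ^ m * (N + 1)) < (2 / 3) ^ m * (|z| + 1) :=
      mul_lt_mul_of_pos_left (by linarith) (by positivity)
    rw [← mul_assoc, ← mul_pow] at h1
    norm_num at h1
    linarith
  · have h1 : (2 : ℚ) ^ m * (|h z| + 1) ≤ 2 ^ m * (M + 1) :=
      mul_le_mul_of_nonneg_left (by linarith) (by positivity)
    linarith

end RealGrowth
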