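import Pool.Agent.Lib.MP_b77ea7P.Defs

/-!
# MP_b77ea7_nt: no map that carries `T_3` to `T_5` is proper for the real absolute value
-/

set_option autoImplicit false

namespace RealGrowth

open Set

theorem memD {x : ℚ} {a : ℤ} {b : ℕ} (hb : Odd b) (hx : x = (a : ℚ) / (b : ℚ)) : x ∈ D := by
  subst hx
  have h := Rat.den_dvd a b
  rw [Rat.divInt_eq_div, Int.cast_natCast] at h
  exact Odd.of_dvd_nat hb (Int.natCast_dvd_natCast.1 h)

/-- the even preimage -/
def al (x : ℚ) : ℚ := 2 * x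

/-- the odd preimage under `T_k` -/
def be (k : ℕ) (x : ℚ) : ℚ := (2 * x - 1) / k

theorem al_mem {x : ℚ} (hx : x ∈ D) : al x ∈ D := by
  refine memD (a := 2 * x.num) (b := x.den) hx ?_
  unfold al
  nth_rewrite 1 [← Rat.num_div_den x]
  push_cast
  ring

theorem be_mem {k : ℕ} (hk : Odd k) {x : ℚ} (hx : x ∈ D) : be k x ∈ D := by
  refine memD (a := 2 * x.num - x.den) (b := k * x.den) (hk.mul hx) ?_
  unfold be
  have h0 : (x.den : ℚ) ≠ 0 := by exact_mod_cast x.den_nz
  have hk0 : (k : ℚ) ≠ 0 := by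
    have : k ≠ 0 := by rintro rfl; simp at hk
    exact_mod_cast this
  nth_rewrite 1 [← Rat.num_div_den x]
  push_cast
  field_simp

theorem al_even {x : ℚ} (hx : x ∈ D) : Even (al x).num := by
  have hy : Odd x.den := hx
  have key : ((al x).num : ℚ) / (al x).den = 2 * (x.num / x.den) := by
    rw [Rat.num_div_den, Rat.num_div_den]; rfl
  have h0 : (x.den : ℚ) ≠ 0 := by exact_mod_cast x.den_nz
  have h1 : ((al x).den : ℚ) ≠ 0 := by exact_mod_cast (al x).den_nz
  rw [div_eq_iff h1] at key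
  have e : ((al x).num : ℚ) * x.den = 2 * (x.num * (al x).den) := by
    rw [key]; field_simp
  have e' : (al x).num * (x.den : ℤ) = 2 * (x.num * ((al x).den : ℤ)) := by exact_mod_cast e
  have h2 : Even ((al x).num * (x.den : ℤ)) := by rw [e']; exact even_two_mul _
  rcases Int.even_mul.1 h2 with h | h
  · exact h
  · exact absurd h (by
      rw [Int.not_even_iff_odd]
      exact_mod_cast hy)

theorem be_odd {k : ℕ} (hk : Odd k) {x : ℚ} (hx : x ∈ D) : ¬ Even (be k x).num := by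
  have hy : Odd x.den := hx
  have hz : Odd (be k x).den := be_mem hk hx
  have hk0 : (k : ℚ) ≠ 0 := by
    have : k ≠ 0 := by rintro rfl; simp at hk
    exact_mod_cast this
  have h0 : (x.den : ℚ) ≠ 0 := by exact_mod_cast x.den_nz
  have h1 : ((be k x).den : ℚ) ≠ 0 := by exact_mod_cast (be k x).den_nz
  have key : ((be k x).num : ℚ) / (be k x).den = (2 * (x.num / x.den) - 1) / k := by
    rw [Rat.num_div_den, Rat.num_div_den]; rfl
  rw [div_eq_iff h1] at key
  have e : (k : ℚ) * (be k x).num * x.den = (2 * x.num - x.den) * (be k x).den := by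
    rw [key]; field_simp
  have e' : (k : ℤ) * (be k x).num * x.den = (2 * x.num - x.den) * ((be k x).den : ℤ) := by
    exact_mod_cast e
  intro he
  have h2 : Even ((k : ℤ) * (be k x).num * x.den) := (he.mul_left _).mul_right _
  rw [e'] at h2
  have h3 : Odd ((2 * x.num - x.den) * ((be k x).den : ℤ)) := by
    refine Odd.mul ?_ (by exact_mod_cast hz)
    exact (even_two_mul _).sub_odd (by exact_mod_cast hy)
  exact (Int.not_even_iff_odd.2 h3) h2

theorem T_al (k : ℕ) {x : ℚ} (hx : x ∈ D) : T k (al x) = x := by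
  unfold T
  rw [if_pos (al_even hx)]
  unfold al
  ring

theorem T_be {k : ℕ} (hk : Odd k) {x : ℚ} (hx : x ∈ D) : T k (be k x) = x := by
  have hk0 : (k : ℚ) ≠ 0 := by
    have : k ≠ 0 := by rintro rfl; simp at hk
    exact_mod_cast this
  unfold T
  rw [if_neg (be_odd hk hx)]
  unfold be
  field_simp
  ring

theorem eq_of_T {k : ℕ} (hk : Odd k) {z w : ℚ} (h : T k z = w) : z = al w ∨ z = be k w := by
  have hk0 : (k : ℚ) ≠ 0 := by
    have : k ≠ 0 := by rintro rfl; simp at hk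
    exact_mod_cast this
  unfold T at h
  split_ifs at h with he
  · left
    unfold al
    rw [← h]
    ring
  · right
    unfold be
    rw [← h]
    field_simp
    ring

theorem al_ne_be {k : ℕ} (hk : Odd k) {x : ℚ} (hx : x ∈ D) : al x ≠ be k x := fun h =>
  be_odd hk hx (h ▸ al_even hx)

/-- the sum of `φ` over the `2 ^ n` preimages of order `n` -/
noncomputable def S (k : ℕ) (φ : ℚ → ℝ) : ℕ → ℚ → ℝ
  | 0, x => φ x
  | n + 1, x => S k φ n (al x) + S k φ n (be k x)

theorem S_mono {k : ℕ} (hk : Odd k) {φ ψ : ℚ → ℝ} (h : ∀ x ∈ D, φ x ≤ ψ x) (n : ℕ) :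
    ∀ x ∈ D, S k φ n x ≤ S k ψ n x := by
  induction n with
  | zero => exact h
  | succ n ih => exact fun x hx => add_le_add (ih _ (al_mem hx)) (ih _ (be_mem hk hx))

theorem transfer {h : ℚ → ℚ} (hi : InjOn h D)
    (hc : ∀ x ∈ D, h (T 3 x) = T 5 (h x)) (φ : ℚ → ℝ) (n : ℕ) :
    ∀ x ∈ D, S 5 φ n (h x) = S 3 (fun z => φ (h z)) n x := by
  have o3 : Odd 3 := by decide
  have o5 : Odd 5 := by decide
  induction n with
  | zero => exact fun x _ => rfl
  | succ n ih =>
    intro x hx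
    have ha := al_mem hx
    have hb := be_mem o3 hx
    have h1 : T 5 (h (al x)) = h x := by rw [← hc _ ha, T_al 3 hx]
    have h2 : T 5 (h (be 3 x)) = h x := by rw [← hc _ hb, T_be o3 hx]
    have hne : h (al x) ≠ h (be 3 x) := fun e => al_ne_be o3 hx (hi ha hb e)
    show S 5 φ n (al (h x)) + S 5 φ n (be 5 (h x)) = S 3 _ n (al x) + S 3 _ n (be 3 x)
    rw [← ih _ ha, ← ih _ hb]
    rcases eq_of_T o5 h1 with e1 | e1 <;> rcases eq_of_T o5 h2 with e2 | e2
    · exact absurd (e1.trans e2.symm) hne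
    · rw [e1, e2]
    · rw [e1, e2, add_comm]
    · exact absurd (e1.trans e2.symm) hne

open Classical in
/-- the indicator function of `[-M, M]` -/
noncomputable def ind (M : ℝ) (x : ℚ) : ℝ := if |(x : ℝ)| ≤ M then 1 else 0

/-- few preimages of a negative number under `T_3 ^ n` are bounded -/
theorem few {N : ℝ} (hN : 0 < N) (n : ℕ) : ∀ x : ℚ, x < 0 →
    S 3 (ind N) n x ≤ ((1 + √3) / √2) ^ n * √(N / |(x : ℝ)|) := by
  induction n with
  | zero =>
    intro x hx
    have hx' : (x : ℝ) < 0 := by exact_mod_cast hx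
    have hpos : 0 < |(x : ℝ)| := abs_pos.2 hx'.ne
    show ind N x ≤ _
    rw [pow_zero, one_mul]
    unfold ind
    split_ifs with h
    · rw [Real.le_sqrt' (by norm_num), one_pow, le_div_iff₀ hpos, one_mul]
      exact h
    · exact Real.sqrt_nonneg _
  | succ n ih =>
    intro x hx
    have hx' : (x : ℝ) < 0 := by exact_mod_cast hx
    have hpos : 0 < |(x : ℝ)| := abs_pos.2 hx'.ne
    have ha : al x < 0 := by unfold al; linarith
    have hb : be 3 x < 0 := by unfold be; push_cast; linarith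
    have h1 := ih _ ha
    have h2 := ih _ hb
    have e1 : √(N / |((al x : ℚ) : ℝ)|) = √(N / |(x : ℝ)|) / √2 := by
      rw [← Real.sqrt_div (by positivity)]
      congr 1
      unfold al
      push_cast
      rw [abs_mul, abs_of_pos (by norm_num : (0 : ℝ) < 2)]
      field_simp
    have e2 : √(N / |((be 3 x : ℚ) : ℝ)|) ≤ √(N / |(x : ℝ)|) * √3 / √2 := by
      rw [← Real.sqrt_mul (by positivity), ← Real.sqrt_div (by positivity)]
      apply Real.sqrt_le_sqrt
      have h3 : 2 / 3 * |(x : ℝ)| ≤ |((be 3 x : ℚ) : ℝ)| := by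
        unfold be
        push_cast
        rw [abs_of_neg hx', abs_of_neg (by linarith)]
        linarith
      have h4 : 0 < |((be 3 x : ℚ) : ℝ)| := lt_of_lt_of_le (by positivity) h3
      rw [div_le_iff₀ h4]
      calc N = N / |(x : ℝ)| * 3 / 2 * (2 / 3 * |(x : ℝ)|) := by field_simp
        _ ≤ N / |(x : ℝ)| * 3 / 2 * |((be 3 x : ℚ) : ℝ)| :=
          mul_le_mul_of_nonneg_left h3 (by positivity)
    show S 3 (ind N) n (al x) + S 3 (ind N) n (be 3 x) ≤ _
    have hl : (0 : ℝ) ≤ ((1 + √3) / √2) ^ n := by positivity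
    calc S 3 (ind N) n (al x) + S 3 (ind N) n (be 3 x)
        ≤ ((1 + √3) / √2) ^ n * (√(N / |(x : ℝ)|) / √2) +
          ((1 + √3) / √2) ^ n * (√(N / |(x : ℝ)|) * √3 / √2) := by
          refine add_le_add (h1.trans_eq (by rw [e1])) (h2.trans ?_)
          exact mul_le_mul_of_nonneg_left e2 hl
      _ = ((1 + √3) / √2) ^ (n + 1) * √(N / |(x : ℝ)|) := by
          rw [pow_succ]
          ring

theorem q1 : (2 : ℝ) ^ (1 / 4 : ℝ) ≤ 1.19 := by
  have h : ((1.19 : ℝ) ^ (4 : ℕ)) ^ (1 / 4 : ℝ) = 1.19 := by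
    rw [← Real.rpow_natCast, ← Real.rpow_mul (by norm_num)]
    norm_num
  rw [← h]
  exact Real.rpow_le_rpow (by norm_num) (by norm_num) (by norm_num)

theorem q2 : (2 / 5 : ℝ) ^ (1 / 4 : ℝ) ≤ 0.8 := by
  have h : ((0.8 : ℝ) ^ (4 : ℕ)) ^ (1 / 4 : ℝ) = 0.8 := by
    rw [← Real.rpow_natCast, ← Real.rpow_mul (by norm_num)]
    norm_num
  rw [← h]
  exact Real.rpow_le_rpow (by norm_num) (by norm_num) (by norm_num)

/-- the fourth root of the absolute value -/
noncomputable def V (x : ℚ) : ℝ := |(x : ℝ)| ^ (1 / 4 : ℝ)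

theorem V_step (x : ℚ) : V (al x) + V (be 5 x) ≤ 1.99 * V x + 1 := by
  have hx : 0 ≤ |(x : ℝ)| := abs_nonneg _
  have hV : 0 ≤ V x := Real.rpow_nonneg hx _
  have h1 : V (al x) ≤ 1.19 * V x := by
    unfold V al
    push_cast
    rw [abs_mul, abs_of_pos (by norm_num : (0 : ℝ) < 2), Real.mul_rpow (by norm_num) hx]
    exact mul_le_mul_of_nonneg_right q1 hV
  have h2 : V (be 5 x) ≤ 0.8 * V x + 1 := by
    have h3 : |((be 5 x : ℚ) : ℝ)| ≤ 2 / 5 * |(x : ℝ)| + 1 := by
      unfold be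
      push_cast
      rw [abs_div, abs_of_pos (by norm_num : (0 : ℝ) < 5), div_le_iff₀ (by norm_num)]
      calc |2 * (x : ℝ) - 1| ≤ |2 * (x : ℝ)| + |1| := abs_sub _ _
        _ = 2 * |(x : ℝ)| + 1 := by rw [abs_mul, abs_two, abs_one]
        _ ≤ (2 / 5 * |(x : ℝ)| + 1) * 5 := by linarith
    unfold V
    calc |((be 5 x : ℚ) : ℝ)| ^ (1 / 4 : ℝ) ≤ (2 / 5 * |(x : ℝ)| + 1) ^ (1 / 4 : ℝ) :=
          Real.rpow_le_rpow (abs_nonneg _) h3 (by norm_num)
      _ ≤ (2 / 5 * |(x : ℝ)|) ^ (1 / 4 : ℝ) + 1 ^ (1 / 4 : ℝ) :=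
          Real.rpow_add_le_add_rpow (by positivity) (by norm_num) (by norm_num) (by norm_num)
      _ ≤ 0.8 * |(x : ℝ)| ^ (1 / 4 : ℝ) + 1 := by
          rw [Real.mul_rpow (by norm_num) hx, Real.one_rpow]
          exact add_le_add (mul_le_mul_of_nonneg_right q2 hV) le_rfl
  linarith

/-- at least half of the preimages under `T_5 ^ n` are bounded -/
theorem many {K : ℝ} (hK : 0 < K) (n : ℕ) : ∀ x : ℚ,
    2 ^ n * (1 - (0.995 ^ n * V x + 100 * (1 - 0.995 ^ n)) / K) ≤ S 5 (ind (K ^ 4)) n x := by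
  induction n with
  | zero =>
    intro x
    show _ ≤ ind (K ^ 4) x
    simp only [pow_zero, one_mul, sub_self, mul_zero, add_zero]
    unfold ind
    split_ifs with h
    · have : 0 ≤ V x / K := div_nonneg (Real.rpow_nonneg (abs_nonneg _) _) hK.le
      linarith
    · rw [not_le] at h
      have h1 : K ≤ V x := by
        have h2 : (K ^ 4) ^ (1 / 4 : ℝ) = K := by
          rw [← Real.rpow_natCast, ← Real.rpow_mul hK.le]
          norm_num
        unfold V
        rw [← h2]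
        exact Real.rpow_le_rpow (by positivity) h.le (by norm_num)
      have : 1 ≤ V x / K := (one_le_div hK).2 h1
      linarith
  | succ n ih =>
    intro x
    show _ ≤ S 5 (ind (K ^ 4)) n (al x) + S 5 (ind (K ^ 4)) n (be 5 x)
    refine le_trans ?_ (add_le_add (ih _) (ih _))
    have h := V_step x
    have hr : (0 : ℝ) < 0.995 ^ n := by positivity
    have h2 : (0.995 : ℝ) ^ n * (V (al x) + V (be 5 x)) ≤ 0.995 ^ n * (1.99 * V x + 1) :=
      mul_le_mul_of_nonneg_left h hr.le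
    have e : (2 : ℝ) ^ n * (1 - (0.995 ^ n * V (al x) + 100 * (1 - 0.995 ^ n)) / K) +
        2 ^ n * (1 - (0.995 ^ n * V (be 5 x) + 100 * (1 - 0.995 ^ n)) / K) =
        2 ^ n * (2 - (0.995 ^ n * (V (al x) + V (be 5 x)) + 200 * (1 - 0.995 ^ n)) / K) := by
      ring
    rw [e, pow_succ, mul_assoc]
    refine mul_le_mul_of_nonneg_left ?_ (by positivity)
    rw [mul_sub, mul_one, mul_div_assoc']
    refine sub_le_sub_left ((div_le_div_iff_of_pos_right hK).2 ?_) _
    rw [pow_succ]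
    nlinarith [h2]

theorem lam_lt : (1 + √3) / √2 < 2 := by
  have h3 : √3 < 1.733 := by
    rw [Real.sqrt_lt' (by norm_num)]
    norm_num
  have h2 : 1.414 < √2 := by
    rw [Real.lt_sqrt (by norm_num)]
    norm_num
  rw [div_lt_iff₀ (by positivity)]
  linarith

theorem main {h : ℚ → ℚ} (hi : InjOn h D)
    (hc : ∀ x ∈ D, h (T 3 x) = T 5 (h x)) :
    ∃ M : ℚ, ∀ N : ℚ, ∃ x ∈ D, N < |x| ∧ |h x| ≤ M := by
  by_contra hcon
  push Not at hcon
  have h1 : (-1 : ℚ) ∈ D := by
    show Odd (-1 : ℚ).den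
    simp
  set K : ℝ := 2 * (V (h (-1)) + 100) with hK
  have hV : 0 ≤ V (h (-1)) := Real.rpow_nonneg (abs_nonneg _) _
  have hK0 : 0 < K := by positivity
  obtain ⟨M, hM⟩ := exists_rat_gt (K ^ 4)
  obtain ⟨N, hN⟩ := hcon M
  set N' : ℝ := max N 1 with hN'
  have hN0 : 0 < N' := lt_of_lt_of_le one_pos (le_max_right _ _)
  have hs : 0 < √N' := Real.sqrt_pos.2 hN0
  have hl0 : 0 ≤ (1 + √3) / √2 / 2 := by positivity
  have hl1 : (1 + √3) / √2 / 2 < 1 := by
    have := lam_lt
    linarith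
  obtain ⟨n, hn⟩ := exists_pow_lt_of_lt_one (show (0 : ℝ) < 1 / (2 * √N') by positivity) hl1
  have hle : ∀ z ∈ D, ind (K ^ 4) (h z) ≤ ind N' z := by
    intro z hz
    unfold ind
    split_ifs with ha hb
    · exact le_rfl
    · exfalso
      apply hb
      by_contra hb'
      rw [not_le] at hb'
      have h2 : N < |z| := by
        have : (N : ℝ) < |(z : ℝ)| := lt_of_le_of_lt (le_max_left _ _) hb'
        exact_mod_cast this
      have h3 : (M : ℝ) < |((h z : ℚ) : ℝ)| := by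
        have := hN z hz h2
        exact_mod_cast this
      linarith
    · exact zero_le_one
    · exact le_rfl
  have A := many hK0 n (h (-1))
  have B := transfer hi hc (ind (K ^ 4)) n (-1) h1
  have C := S_mono (k := 3) (by decide) hle n (-1) h1
  have E := few hN0 n (-1) (by norm_num)
  have F : √(N' / |(((-1 : ℚ)) : ℝ)|) = √N' := by
    congr 1
    push_cast
    rw [abs_neg, abs_one, div_one]
  rw [F] at E
  have hr0 : (0 : ℝ) < 0.995 ^ n := by positivity
  have hr1 : (0.995 : ℝ) ^ n ≤ 1 := pow_le_one₀ (by norm_num) (by norm_num)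
  have G : (1 : ℝ) / 2 ≤ 1 - (0.995 ^ n * V (h (-1)) + 100 * (1 - 0.995 ^ n)) / K := by
    have h2 : (0.995 ^ n * V (h (-1)) + 100 * (1 - 0.995 ^ n)) / K ≤ 1 / 2 := by
      rw [div_le_iff₀ hK0, hK]
      nlinarith
    linarith
  have H : (2 : ℝ) ^ n * (1 / 2) ≤ ((1 + √3) / √2) ^ n * √N' := by
    calc (2 : ℝ) ^ n * (1 / 2)
        ≤ 2 ^ n * (1 - (0.995 ^ n * V (h (-1)) + 100 * (1 - 0.995 ^ n)) / K) :=
          mul_le_mul_of_nonneg_left G (by positivity)
      _ ≤ S 5 (ind (K ^ 4)) n (h (-1)) := A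
      _ = S 3 (fun z => ind (K ^ 4) (h z)) n (-1) := B
      _ ≤ S 3 (ind N') n (-1) := C
      _ ≤ _ := E
  have I : ((1 + √3) / √2) ^ n = 2 ^ n * ((1 + √3) / √2 / 2) ^ n := by
    rw [← mul_pow]
    congr 1
    ring
  rw [I, mul_assoc] at H
  have J := le_of_mul_le_mul_left H (by positivity : (0 : ℝ) < 2 ^ n)
  rw [lt_div_iff₀ (by positivity)] at hn
  linarith

end RealGrowth
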